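import Pool.Agent.helper88.RL.SpecL
import Pool.Agent.helper78.RF.WDV

set_option autoImplicit false

/-!
# Row NRV of project RL (MP_16912e_nt): divisors and size of the resultant
-/

namespace Pool.Agent.RL

open Finset Pool.Agent.helper3.FT Pool.Agent.T6 Pool.Agent.RF

/-- the divisibility without a condition on `k` -/
theorem NRV_gen {R : Type*} [CommRing R] (h k k' a a' z z' φ φ' Rr : R) (hφ : φ * φ' = -1)
    (hR : Rr = (z * z') ^ 3 - 75 * (z * z') ^ 2 * (a * a') - 625 * (z * z') * (a * a') ^ 2 - 3125 * (a * a') ^ 3 -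
      8 * (φ ^ 3 * a * z' ^ 5 + φ' ^ 3 * a' * z ^ 5))
    (h1 : h ∣ 5 * a * k ^ 3 + 2 * φ' * z * k * k' ^ 2 - z' * k' ^ 3)
    (h2 : h ∣ 5 * a' * k' ^ 3 + 2 * φ * z' * k' * k ^ 2 - z * k ^ 3) : h ∣ (5 * k' ^ 5) * Rr := by
  have e1 : h ∣ 5 * a * k ^ 3 - 2 * (-(φ' * z)) * k * k' ^ 2 + (-z') * k' ^ 3 := by
    have : 5 * a * k ^ 3 - 2 * (-(φ' * z)) * k * k' ^ 2 + (-z') * k' ^ 3 =
      5 * a * k ^ 3 + 2 * φ' * z * k * k' ^ 2 - z' * k' ^ 3 := by ring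
    rw [this]
    exact h1
  have e2 : h ∣ (-(φ' * z)) * k ^ 3 + 2 * (-z') * k ^ 2 * k' - 5 * (-(φ' * a')) * k' ^ 3 := by
    have : (-(φ' * z)) * k ^ 3 + 2 * (-z') * k ^ 2 * k' - 5 * (-(φ' * a')) * k' ^ 3 =
      φ' * (5 * a' * k' ^ 3 + 2 * φ * z' * k' * k ^ 2 - z * k ^ 3) := by
      linear_combination (-2 * z' * k' * k ^ 2) * hφ
    rw [this]
    exact h2.mul_left _
  have key := WDV_key a (-(φ' * z)) (-z') (-(φ' * a')) k k'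
  have h3 : h ∣ (-(k' ^ 4)) * (5 * k') * (((-(φ' * z)) * (-z')) ^ 3 + 75 * ((-(φ' * z)) * (-z')) ^ 2 * (a * (-(φ' * a')))
      - 625 * ((-(φ' * z)) * (-z')) * (a * (-(φ' * a'))) ^ 2
    + 3125 * (a * (-(φ' * a'))) ^ 3 - 8 * (a * (-z') ^ 5 + (-(φ' * z)) ^ 5 * (-(φ' * a')))) := by
    rw [← key]
    exact dvd_add (e1.mul_left _) (e2.mul_left _)
  have h33 : φ ^ 3 * φ' ^ 3 = -1 := by
    rw [← mul_pow, hφ]
    ring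
  have hRf : ((-(φ' * z)) * (-z')) ^ 3 + 75 * ((-(φ' * z)) * (-z')) ^ 2 * (a * (-(φ' * a')))
      - 625 * ((-(φ' * z)) * (-z')) * (a * (-(φ' * a'))) ^ 2
    + 3125 * (a * (-(φ' * a'))) ^ 3 - 8 * (a * (-z') ^ 5 + (-(φ' * z)) ^ 5 * (-(φ' * a'))) = φ' ^ 3 * Rr := by
    rw [hR]
    linear_combination (8 * a * z' ^ 5) * h33
  rw [hRf] at h3
  have : (5 * k' ^ 5) * Rr = φ ^ 3 * ((-(k' ^ 4)) * (5 * k') * (φ' ^ 3 * Rr)) := by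
    linear_combination (5 * k' ^ 5 * Rr) * h33
  rw [this]
  exact h3.mul_left _

/-- `(k - k')² = 5` -/
theorem NRV_five {R : Type*} [CommRing R] (h k k' Rr : R) (hD : (k - k') ^ 2 = 5) (h1 : h ∣ (5 * k' ^ 5) * Rr)
    (h2 : h ∣ (5 * k ^ 5) * Rr) : h ∣ 5 ^ 6 * Rr := by
  have e : (5 : R) ^ 6 * Rr = (k - k') * ((k ^ 4 - 9 * k ^ 3 * k' + 36 * k ^ 2 * k' ^ 2 - 84 * k * k' ^ 3 + 126 * k' ^ 4) * ((5 * k ^ 5) * Rr) +
      (-126 * k ^ 4 + 84 * k ^ 3 * k' - 36 * k ^ 2 * k' ^ 2 + 9 * k * k' ^ 3 - k' ^ 4) * ((5 * k' ^ 5) * Rr)) := by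
    have e1 : (k - k') ^ 10 = 5 ^ 5 := by
      have e2 : (k - k') ^ 10 = ((k - k') ^ 2) ^ 5 := by ring
      rw [e2, hD]
    have e3 : (5 : R) ^ 6 * Rr = (k - k') ^ 10 * (5 * Rr) := by
      rw [e1]
      ring
    rw [e3]
    ring
  rw [e]
  exact (dvd_add (h2.mul_left _) (h1.mul_left _)).mul_left _

theorem NRV_dvd (d r : ℕ) (a z : OO) (hd : Nat.Coprime d 5) (hF : ((d : ℕ) : OO) ∣ FF ⟨(r : ℤ), 1⟩ a z) :
    (d : ℤ) ∣ R0 a z := by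
  have hF2 : ((d : ℕ) : OO) ∣ star (FF ⟨(r : ℤ), 1⟩ a z) := by
    obtain ⟨t, ht⟩ := hF
    refine ⟨star t, ?_⟩
    rw [ht]
    simp [mul_comm]
  obtain ⟨k, hk⟩ : ∃ k : OO, k = ⟨(r : ℤ), 1⟩ := ⟨_, rfl⟩
  rw [← hk] at hF hF2
  have hst : star (FF k a z) = 5 * star a * star k ^ 3 + 2 * ph * star z * star k * k ^ 2 - z * k ^ 3 := by
    simp only [FF, star_sub, star_add, star_mul, star_star, star_pow]
    have h5 : star (5 : OO) = 5 := by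
      ext
      · simp [QuadraticAlgebra.re_ofNat]
      · simp [QuadraticAlgebra.im_ofNat]
    have h2 : star (2 : OO) = 2 := by
      ext
      · simp [QuadraticAlgebra.re_ofNat]
      · simp [QuadraticAlgebra.im_ofNat]
    rw [h5, h2]
    ring
  rw [hst] at hF2
  have hR : ((R0 a z : ℤ) : OO) = (z * star z) ^ 3 - 75 * (z * star z) ^ 2 * (a * star a) -
      625 * (z * star z) * (a * star a) ^ 2 - 3125 * (a * star a) ^ 3 -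
      8 * (ph ^ 3 * a * star z ^ 5 + star ph ^ 3 * star a * z ^ 5) := by
    simp only [R0]
    push_cast
    rw [WDV_tr, WDV_norm, WDV_norm]
    simp only [star_mul, star_star, star_pow]
    ring
  have hR2 : ((R0 a z : ℤ) : OO) = (star z * z) ^ 3 - 75 * (star z * z) ^ 2 * (star a * a) -
      625 * (star z * z) * (star a * a) ^ 2 - 3125 * (star a * a) ^ 3 -
      8 * (star ph ^ 3 * star a * z ^ 5 + ph ^ 3 * a * star z ^ 5) := by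
    rw [hR]
    ring
  have g1 := NRV_gen ((d : ℕ) : OO) k (star k) a (star a) z (star z) ph (star ph) ((R0 a z : ℤ) : OO) WDV_ph2 hR hF hF2
  have hph : star ph * ph = -1 := by
    rw [mul_comm]
    exact WDV_ph2
  have g2 := NRV_gen ((d : ℕ) : OO) (star k) k (star a) a (star z) z (star ph) ph ((R0 a z : ℤ) : OO) hph hR2 hF2 hF
  have hD : (k - star k) ^ 2 = 5 := by
    rw [hk]
    ext
    · simp [pow_two, QuadraticAlgebra.re_ofNat]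
    · simp [pow_two, QuadraticAlgebra.im_ofNat]
  have g3 := NRV_five ((d : ℕ) : OO) k (star k) ((R0 a z : ℤ) : OO) hD g1 g2
  have hcop : IsCoprime ((d : ℕ) : OO) ((5 : OO) ^ 6) := by
    refine IsCoprime.pow_right ?_
    obtain ⟨u, v, huv⟩ := Nat.isCoprime_iff_coprime.2 hd
    refine ⟨(u : OO), (v : OO), ?_⟩
    have h1 := congrArg (fun n : ℤ => (n : OO)) huv
    push_cast at h1
    exact h1
  obtain ⟨t, ht⟩ := hcop.dvd_of_dvd_mul_left g3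
  refine ⟨t.re, ?_⟩
  have := congrArg QuadraticAlgebra.re ht
  simpa using this

/-- the trace as a polynomial -/
theorem NRV_tr (a z : OO) : trO (ph ^ 3 * a * star z ^ 5) =
    a.re * (4 * z.re ^ 5 - 15 * z.re ^ 4 * z.im + 10 * z.re ^ 3 * z.im ^ 2 - 20 * z.re ^ 2 * z.im ^ 3 - 5 * z.re * z.im ^ 4 - 3 * z.im ^ 5) +
    a.im * (7 * z.re ^ 5 - 20 * z.re ^ 4 * z.im + 30 * z.re ^ 3 * z.im ^ 2 - 10 * z.re ^ 2 * z.im ^ 3 + 10 * z.re * z.im ^ 4 + z.im ^ 5) := by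
  simp only [trO, ph, pow_succ, pow_zero, one_mul, QuadraticAlgebra.re_mul, QuadraticAlgebra.im_mul, QuadraticAlgebra.re_star, QuadraticAlgebra.im_star]
  ring

/-- monomials -/
theorem NRV_mon {V p s t : ℝ} (hp : |p| ≤ V) (hs : |s| ≤ V) (ht : |t| ≤ V) (i j : ℕ) (hij : i + j = 5) :
    |p * (s ^ i * t ^ j)| ≤ V ^ 6 := by
  have hV : 0 ≤ V := (abs_nonneg p).trans hp
  have h1 : |p * (s ^ i * t ^ j)| = |p| * (|s| ^ i * |t| ^ j) := by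
    rw [abs_mul, abs_mul, abs_pow, abs_pow]
  have h2 : V ^ 6 = V * (V ^ i * V ^ j) := by
    rw [← pow_add, hij]
    ring
  rw [h1, h2]
  gcongr

theorem NRV_poly {V p q s t : ℝ} (hp : |p| ≤ V) (hq : |q| ≤ V) (hs : |s| ≤ V) (ht : |t| ≤ V) :
    |p * (4 * s ^ 5 - 15 * s ^ 4 * t + 10 * s ^ 3 * t ^ 2 - 20 * s ^ 2 * t ^ 3 - 5 * s * t ^ 4 - 3 * t ^ 5) +
      q * (7 * s ^ 5 - 20 * s ^ 4 * t + 30 * s ^ 3 * t ^ 2 - 10 * s ^ 2 * t ^ 3 + 10 * s * t ^ 4 + t ^ 5)| ≤ 135 * V ^ 6 := by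
  have a0 := abs_le.1 (NRV_mon hp hs ht 5 0 rfl)
  have a1 := abs_le.1 (NRV_mon hp hs ht 4 1 rfl)
  have a2 := abs_le.1 (NRV_mon hp hs ht 3 2 rfl)
  have a3 := abs_le.1 (NRV_mon hp hs ht 2 3 rfl)
  have a4 := abs_le.1 (NRV_mon hp hs ht 1 4 rfl)
  have a5 := abs_le.1 (NRV_mon hp hs ht 0 5 rfl)
  have b0 := abs_le.1 (NRV_mon hq hs ht 5 0 rfl)
  have b1 := abs_le.1 (NRV_mon hq hs ht 4 1 rfl)
  have b2 := abs_le.1 (NRV_mon hq hs ht 3 2 rfl)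
  have b3 := abs_le.1 (NRV_mon hq hs ht 2 3 rfl)
  have b4 := abs_le.1 (NRV_mon hq hs ht 1 4 rfl)
  have b5 := abs_le.1 (NRV_mon hq hs ht 0 5 rfl)
  rw [abs_le]
  constructor
  · linarith [a0.1, a1.2, a2.1, a3.2, a4.2, a5.2, b0.1, b1.2, b2.1, b3.2, b4.1, b5.1]
  · linarith [a0.2, a1.1, a2.2, a3.1, a4.1, a5.1, b0.2, b1.1, b2.2, b3.1, b4.2, b5.2]

theorem NRV_nm {V s t : ℝ} (hs : |s| ≤ V) (ht : |t| ≤ V) : |s * s + s * t - t * t| ≤ 5 / 4 * V ^ 2 := by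
  have h1 : s ^ 2 ≤ V ^ 2 := by
    rw [← sq_abs s]
    gcongr
  have h2 : t ^ 2 ≤ V ^ 2 := by
    rw [← sq_abs t]
    gcongr
  rw [abs_le]
  constructor
  · nlinarith [sq_nonneg (s + t / 2)]
  · nlinarith [sq_nonneg (t - s / 2)]

theorem NRV_fin {V A Z T : ℝ} (hA : |A| ≤ 5 / 4 * V ^ 2) (hZ : |Z| ≤ 5 / 4 * V ^ 2) (hT : |T| ≤ 135 * V ^ 6) :
    |Z ^ 3 - 75 * Z ^ 2 * A - 625 * Z * A ^ 2 - 3125 * A ^ 3 - 8 * T| ≤ 16384 * V ^ 6 := by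
  have hm : ∀ i j : ℕ, i + j = 3 → |Z ^ i * A ^ j| ≤ 125 / 64 * V ^ 6 := by
    intro i j hij
    have h1 : |Z ^ i * A ^ j| = |Z| ^ i * |A| ^ j := by
      rw [abs_mul, abs_pow, abs_pow]
    have h2 : 125 / 64 * V ^ 6 = (5 / 4 * V ^ 2) ^ i * (5 / 4 * V ^ 2) ^ j := by
      rw [← pow_add, hij]
      ring
    rw [h1, h2]
    gcongr
  have a0 := abs_le.1 (hm 3 0 rfl)
  have a1 := abs_le.1 (hm 2 1 rfl)
  have a2 := abs_le.1 (hm 1 2 rfl)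
  have a3 := abs_le.1 (hm 0 3 rfl)
  have a4 := abs_le.1 hT
  have hV : 0 ≤ V ^ 6 := by positivity
  rw [abs_le]
  constructor
  · linarith [a0.1, a1.2, a2.2, a3.2, a4.2]
  · linarith [a0.2, a1.1, a2.1, a3.1, a4.1]

theorem NRV : NRV_stmt := by
  refine ⟨fun d r v hd hv => NRV_dvd d r _ _ hd hv, ?_⟩
  intro b v _
  have h1 : |(v.1 : ℝ)| ≤ nrm b v := le_trans (le_max_left _ _) (le_max_left _ _)
  have h2 : |(v.2.1 : ℝ)| ≤ nrm b v := le_trans (le_max_right _ _) (le_max_left _ _)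
  have h3 : |(v.2.2.1 : ℝ)| ≤ nrm b v := le_trans (le_max_left _ _) (le_max_right _ _)
  have h4 : |(v.2.2.2 : ℝ)| ≤ nrm b v := le_trans (le_max_right _ _) (le_max_right _ _)
  have hA := NRV_nm h1 h2
  have hZ := NRV_nm h3 h4
  have hT := NRV_poly h1 h2 h3 h4
  have h5 := NRV_fin hA hZ hT
  have e : ((RV v : ℤ) : ℝ) = ((v.2.2.1 : ℝ) * v.2.2.1 + v.2.2.1 * v.2.2.2 - v.2.2.2 * v.2.2.2) ^ 3 -
      75 * ((v.2.2.1 : ℝ) * v.2.2.1 + v.2.2.1 * v.2.2.2 - v.2.2.2 * v.2.2.2) ^ 2 * ((v.1 : ℝ) * v.1 + v.1 * v.2.1 - v.2.1 * v.2.1) -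
      625 * ((v.2.2.1 : ℝ) * v.2.2.1 + v.2.2.1 * v.2.2.2 - v.2.2.2 * v.2.2.2) * ((v.1 : ℝ) * v.1 + v.1 * v.2.1 - v.2.1 * v.2.1) ^ 2 -
      3125 * ((v.1 : ℝ) * v.1 + v.1 * v.2.1 - v.2.1 * v.2.1) ^ 3 -
      8 * ((v.1 : ℝ) * (4 * (v.2.2.1 : ℝ) ^ 5 - 15 * (v.2.2.1 : ℝ) ^ 4 * v.2.2.2 + 10 * (v.2.2.1 : ℝ) ^ 3 * (v.2.2.2 : ℝ) ^ 2 - 20 * (v.2.2.1 : ℝ) ^ 2 * (v.2.2.2 : ℝ) ^ 3 - 5 * (v.2.2.1 : ℝ) * (v.2.2.2 : ℝ) ^ 4 - 3 * (v.2.2.2 : ℝ) ^ 5) +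
        (v.2.1 : ℝ) * (7 * (v.2.2.1 : ℝ) ^ 5 - 20 * (v.2.2.1 : ℝ) ^ 4 * v.2.2.2 + 30 * (v.2.2.1 : ℝ) ^ 3 * (v.2.2.2 : ℝ) ^ 2 - 10 * (v.2.2.1 : ℝ) ^ 2 * (v.2.2.2 : ℝ) ^ 3 + 10 * (v.2.2.1 : ℝ) * (v.2.2.2 : ℝ) ^ 4 + (v.2.2.2 : ℝ) ^ 5)) := by
    unfold RV R0
    rw [NRV_tr]
    simp only [va4, vz4, QuadraticAlgebra.norm_def]
    push_cast
    ring
  rw [e]
  exact h5

end Pool.Agent.RL
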